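import Pool.Agent.X14.LG20

/-!
# Sign and integrality of the normalised partial sums of the series with `(154j+15)` and ratio `-32768`
-/

set_option autoImplicit false

namespace Pool.Agent.Results.MP_1a3e71_nt.SignIntegrality

open Finset

/-- `S n = Σ_{j<n} (154j+15) (6j)!/((3j)! (j!)^3) (-32768)^(n-1-j)`. -/
def S (n : ℕ) : ℚ :=
  ∑ j ∈ range n, (154 * (j : ℚ) + 15) * (((6 * j).factorial : ℚ) / (((3 * j).factorial : ℚ) * (j.factorial : ℚ) ^ 3)) *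
    (-32768) ^ (n - 1 - j)

/-- `a n = S n / (10 n (2n+1) C(2n,n))`. -/
def a (n : ℕ) : ℚ := S n / (10 * (n : ℚ) * (2 * n + 1) * ((2 * n).choose n : ℚ))

/-- For every `n > 1`: if `2n+1` is not of the form `5^m` with `m ≥ 1` then `(-1)^(n-1) a n` is a positive
integer; if `2n+1 = 5^m` with `m ≥ 1` then `5 a n` is an integer that is not divisible by `5`. -/
theorem result (n : ℕ) (hn : 1 < n) :
    ((¬ ∃ m : ℕ, 1 ≤ m ∧ 2 * n + 1 = 5 ^ m) → ∃ z : ℤ, 0 < z ∧ (-1) ^ (n - 1) * a n = z) ∧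
    ((∃ m : ℕ, 1 ≤ m ∧ 2 * n + 1 = 5 ^ m) → ∃ z : ℤ, 5 * a n = z ∧ ¬ (5 : ℤ) ∣ z) := by
  obtain ⟨r, rfl⟩ : ∃ r, n = r + 1 := ⟨n - 1, by omega⟩
  have e : a (r + 1) = Pool.Agent.X14.LG.a15 (r + 1) / 5 := by
    unfold a S Pool.Agent.X14.LG.a15
    rw [div_div]
    congr 1
    ring
  rw [Nat.add_sub_cancel]
  constructor
  · intro h
    have h' : ¬ ∃ m, 2 * (r + 1) + 1 = 5 ^ m := by
      rintro ⟨m, hm⟩
      rcases m with _ | m
      · simp at hm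
      · exact h ⟨m + 1, by omega, hm⟩
    obtain ⟨z, hz⟩ := Pool.Agent.X14.LG.a15_fifth r (by omega) h'
    have hs := Pool.Agent.X14.LG.a15_sign r
    refine ⟨(-1) ^ r * z, ?_, ?_⟩
    · have h1 : 0 < (-1 : ℚ) ^ r * (Pool.Agent.X14.LG.a15 (r + 1) / 5) := by
        rw [← mul_div_assoc]; exact div_pos hs (by norm_num)
      rw [hz] at h1
      exact_mod_cast h1
    · rw [e, hz]; push_cast; rfl
  · rintro ⟨m, _, hm⟩
    obtain ⟨z, hz⟩ := Pool.Agent.X14.LG.a15_intz r (by omega)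
    refine ⟨z, ?_, Pool.Agent.X14.LG.a15_nofifth r m (by omega) hm z hz⟩
    rw [e, ← hz]; ring

end Pool.Agent.Results.MP_1a3e71_nt.SignIntegrality
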